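import Pool.Agent.Y530.TN.Stm

/-!
# Two-extension of a body (job TN-EXT of helper530)
-/

set_option autoImplicit false

namespace Pool.Agent.Y927.TN.Ext

open Finset Module Pool.Agent.W824.BJ Pool.Agent.Y530.BB Pool.Agent.Y530.TN

/-- a screw which satisfies the equations of six bars from true to false points vanishes -/
theorem six {V : Type} [Fintype V] (F1 : Finset (Sym2 V)) (hc : F1.card = 6) (hcap : Cap F1)
    (β2 : V → Bool)
    (hF : ∀ u v, s(u, v) ∈ F1 → (β2 u = true ∧ β2 v = false) ∨ (β2 u = false ∧ β2 v = true))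
    (T : Fin 6 → PK V)
    (hT : ∀ u v, s(u, v) ∈ F1 → β2 u = true → β2 v = false → pr T (gx V u) (gx V v) = 0) :
    T = 0 := by
  classical
  have hsp : Sparse β2 F1 := by
    intro C hC
    rcases (ins β2 F1 C).eq_empty_or_nonempty with he | ⟨e, he⟩
    · rw [he, Finset.card_empty]
      have := Finset.card_pos.2 hC
      omega
    · have hle : (ins β2 F1 C).card ≤ F1.card :=
        Finset.card_le_card (fun x hx => (mem_ins.1 hx).1)
      have h2 : 2 ≤ C.card := by
        induction e using Sym2.ind with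
        | _ u v =>
          rw [mem_ins'] at he
          have hne : β2 u ≠ β2 v := by
            rcases hF u v he.1 with ⟨a, b⟩ | ⟨a, b⟩ <;> rw [a, b] <;> decide
          have : ({β2 u, β2 v} : Finset Bool) ⊆ C := by
            intro x hx
            rcases Finset.mem_insert.1 hx with rfl | hx
            · exact he.2.1
            · rw [Finset.mem_singleton.1 hx]
              exact he.2.2
          calc 2 = ({β2 u, β2 v} : Finset Bool).card := (Finset.card_pair hne).symm
            _ ≤ C.card := Finset.card_le_card this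
      omega
  have hPP := main_all F1.card V Bool β2 F1 rfl hcap hsp
  have h6 : finrank (PK V) (BM β2 F1 (gx V)) = 6 := by
    have h3 : gb β2 F1 = finrank (PK V) (BM β2 F1 (gx V)) := rfl
    rw [h3, hc] at hPP
    simp only [Fintype.card_bool] at hPP
    omega
  -- constant motions
  let cst : (Fin 6 → PK V) →ₗ[PK V] (Bool → Fin 6 → PK V) :=
    LinearMap.pi fun _ => LinearMap.id
  have hinj : Function.Injective cst := by
    intro S S' h
    exact congrFun h true
  have hrk : finrank (PK V) (LinearMap.range cst) = 6 := by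
    rw [LinearMap.finrank_range_of_inj hinj]
    simp
  have hle : LinearMap.range cst ≤ BM β2 F1 (gx V) := by
    rintro _ ⟨S, rfl⟩
    rw [mem_bm]
    intro u v _
    change pr (S - S) _ _ = 0
    rw [sub_self, pr_zero]
  have heq : LinearMap.range cst = BM β2 F1 (gx V) :=
    Submodule.eq_of_le_of_finrank_eq hle (by rw [hrk, h6])
  have hmem : (fun t : Bool => if t = true then T else 0) ∈ BM β2 F1 (gx V) := by
    rw [mem_bm]
    intro u v huv
    rcases hF u v huv with ⟨h1, h2⟩ | ⟨h1, h2⟩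
    · have h3 := hT u v huv h1 h2
      simp only [h1, h2, if_true, Bool.false_eq_true, if_false, sub_zero]
      exact h3
    · have h3 := hT v u (by rw [Sym2.eq_swap]; exact huv) h2 h1
      rw [pr_symm]
      simp only [h1, h2, if_true, Bool.false_eq_true, if_false, sub_zero]
      exact h3
  rw [← heq] at hmem
  obtain ⟨S, hS⟩ := hmem
  have e1 : S = T := by
    have := congrFun hS true
    change S = if (true : Bool) = true then T else 0 at this
    rwa [if_pos rfl] at this
  have e2 : S = 0 := by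
    have := congrFun hS false
    change S = if (false : Bool) = true then T else 0 at this
    rwa [if_neg (by decide)] at this
  rw [← e1, e2]

theorem t (n : ℕ) : S_EXT n := by
  classical
  intro V B _ _ _ β χ y a b F0 fa fb A Bb I hya hyb hab hF0 hfa hfb hca hcb hA hB iA iB hI
  set F := F0 ∪ (brn fa A ∪ brn fb Bb) with hF
  let z : V → Fin 4 → PK V := fun v =>
    if β v = y then (if χ v ∈ I then gx V (A (χ v)) + gx V (Bb (χ v)) else gx V (fa (χ v)))
    else gx V v
  have hz1 : ∀ v, β v ≠ y → z v = gx V v := fun v hv => if_neg hv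
  have hz2 : ∀ v k, β v = y → χ v = k → k ∈ I → z v = gx V (A k) + gx V (Bb k) := by
    intro v k hv hk hkI
    show (if β v = y then (if χ v ∈ I then gx V (A (χ v)) + gx V (Bb (χ v))
      else gx V (fa (χ v))) else gx V v) = _
    rw [if_pos hv, hk, if_pos hkI]
  have hz3 : ∀ v k, β v = y → χ v = k → k ∉ I → z v = gx V (fa k) := by
    intro v k hv hk hkI
    show (if β v = y then (if χ v ∈ I then gx V (A (χ v)) + gx V (Bb (χ v))
      else gx V (fa (χ v))) else gx V v) = _
    rw [if_pos hv, hk, if_neg hkI]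
  set M := BM β (F0 ∪ brI I A Bb) (gx V) with hM
  have hgM : gb β (F0 ∪ brI I A Bb) = finrank (PK V) M := rfl
  -- the equations
  have ra : ∀ m ∈ BM β F z, ∀ k, pr (m y - m a) (z (fa k)) (gx V (A k)) = 0 := by
    intro m hm k
    rw [mem_bm] at hm
    have h1 := hm (fa k) (A k) (by
      rw [hF]
      exact mem_union_right _ (mem_union_left _ (mem_brn.2 ⟨k, rfl⟩)))
    rw [hfa, hA, hz1 (A k) (by rw [hA]; exact hya.symm)] at h1
    exact h1
  have rb : ∀ m ∈ BM β F z, ∀ k, pr (m y - m b) (z (fb k)) (gx V (Bb k)) = 0 := by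
    intro m hm k
    rw [mem_bm] at hm
    have h1 := hm (fb k) (Bb k) (by
      rw [hF]
      exact mem_union_right _ (mem_union_right _ (mem_brn.2 ⟨k, rfl⟩)))
    rw [hfb, hB, hz1 (Bb k) (by rw [hB]; exact hyb.symm)] at h1
    exact h1
  have r1 : ∀ m ∈ BM β F z, ∀ k ∈ I, pr (m y - m a) (gx V (A k)) (gx V (Bb k)) = 0 := by
    intro m hm k hk
    have h1 := ra m hm k
    rw [hz2 (fa k) k (hfa k) (hca k) hk, pr_add_left, pr_self, zero_add, pr_swap,
      neg_eq_zero] at h1
    exact h1
  have r2 : ∀ m ∈ BM β F z, ∀ k ∈ I, pr (m y - m b) (gx V (A k)) (gx V (Bb k)) = 0 := by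
    intro m hm k hk
    have h1 := rb m hm k
    rw [hz2 (fb k) k (hfb k) (hcb k) hk, pr_add_left, pr_self, add_zero] at h1
    exact h1
  have r3 : ∀ m ∈ BM β F z, ∀ k, k ∉ I → pr (m y - m a) (gx V (fa k)) (gx V (A k)) = 0 := by
    intro m hm k hk
    have h1 := ra m hm k
    rwa [hz3 (fa k) k (hfa k) (hca k) hk] at h1
  have r4 : ∀ m ∈ BM β F z, ∀ k, k ∉ I → pr (m y - m b) (gx V (fa k)) (gx V (Bb k)) = 0 := by
    intro m hm k hk
    have h1 := rb m hm k
    rwa [hz3 (fb k) k (hfb k) (hcb k) hk] at h1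
  have r5 : ∀ m ∈ BM β F z, ∀ k ∈ I, pr (m a - m b) (gx V (A k)) (gx V (Bb k)) = 0 := by
    intro m hm k hk
    have e1 := r1 m hm k hk
    have e2 := r2 m hm k hk
    rw [pr_sub] at e1 e2 ⊢
    linear_combination e2 - e1
  have c1 : BM β F z ≤ M := by
    intro m hm
    have hm' := hm
    rw [mem_bm] at hm'
    rw [hM, mem_bm]
    intro u v huv
    rcases mem_union.1 huv with h1 | h1
    · have h2 := hm' u v (by rw [hF]; exact mem_union_left _ h1)
      rwa [hz1 u (hF0 u v h1).1, hz1 v (hF0 u v h1).2] at h2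
    · obtain ⟨k, hkI, hk⟩ := mem_brI.1 h1
      rcases Sym2.eq_iff.1 hk with ⟨rfl, rfl⟩ | ⟨rfl, rfl⟩
      · rw [hA, hB]
        exact r5 m hm k hkI
      · rw [hA, hB, pr_symm]
        exact r5 m hm k hkI
  -- a complement
  let sg : (Fin 6 → PK V) →ₗ[PK V] (B → Fin 6 → PK V) :=
    LinearMap.single (PK V) (fun _ : B => Fin 6 → PK V) y
  have sg_y : ∀ T, sg T y = T := fun T => by
    show (Pi.single y T : B → Fin 6 → PK V) y = T
    simp
  have sg_ne : ∀ T b', b' ≠ y → sg T b' = 0 := fun T b' hb' => by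
    show (Pi.single y T : B → Fin 6 → PK V) b' = 0
    simp [hb']
  have hinj : Function.Injective sg := by
    intro T T' hT
    rw [← sg_y T, hT, sg_y]
  have hW : finrank (PK V) (LinearMap.range sg) = 6 := by
    rw [LinearMap.finrank_range_of_inj hinj]
    simp
  have hWM : LinearMap.range sg ≤ M := by
    rintro _ ⟨T, rfl⟩
    rw [hM, mem_bm]
    intro u v huv
    have huy : β u ≠ y ∧ β v ≠ y := by
      rcases mem_union.1 huv with h1 | h1
      · exact hF0 u v h1
      · obtain ⟨k, -, hk⟩ := mem_brI.1 h1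
        rcases Sym2.eq_iff.1 hk with ⟨rfl, rfl⟩ | ⟨rfl, rfl⟩
        · rw [hA, hB]
          exact ⟨hya.symm, hyb.symm⟩
        · rw [hA, hB]
          exact ⟨hyb.symm, hya.symm⟩
    rw [sg_ne T _ huy.1, sg_ne T _ huy.2, sub_zero, pr_zero]
  -- the six bars
  let P : Fin n → V := fun k => if k ∈ I then A k else fa k
  let Q : Fin n × Bool → V := fun j => if j.2 = true then (if j.1 ∈ I then Bb j.1 else A j.1)
    else Bb j.1
  let J : Finset (Fin n × Bool) := (univ ×ˢ {true}) ∪ (Iᶜ ×ˢ {false})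
  have hJ : J.card = 6 := by
    have hd : Disjoint ((univ : Finset (Fin n)) ×ˢ ({true} : Finset Bool))
        (Iᶜ ×ˢ ({false} : Finset Bool)) := by
      rw [Finset.disjoint_left]
      rintro ⟨k, t⟩ h1 h2
      simp only [mem_product, mem_singleton] at h1 h2
      rw [h1.2] at h2
      exact absurd h2.2 (by decide)
    show ((univ ×ˢ {true}) ∪ (Iᶜ ×ˢ {false}) : Finset (Fin n × Bool)).card = 6
    rw [Finset.card_union_of_disjoint hd, card_product, card_product, card_compl]
    simp only [card_univ, Fintype.card_fin, card_singleton, mul_one]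
    have : I.card ≤ n := by
      have := Finset.card_le_univ I
      rwa [Fintype.card_fin] at this
    omega
  have hJm : ∀ j, j ∈ J → j.2 = true ∨ (j.2 = false ∧ j.1 ∉ I) := by
    rintro ⟨k, t⟩ hj
    rcases mem_union.1 hj with h | h
    · left
      exact mem_singleton.1 (mem_product.1 h).2
    · right
      exact ⟨mem_singleton.1 (mem_product.1 h).2, mem_compl.1 (mem_product.1 h).1⟩
  -- the three kinds of bars
  have hkind : ∀ j ∈ J, (j.1 ∈ I ∧ j.2 = true ∧ P j.1 = A j.1 ∧ Q j = Bb j.1) ∨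
      (j.1 ∉ I ∧ j.2 = true ∧ P j.1 = fa j.1 ∧ Q j = A j.1) ∨
      (j.1 ∉ I ∧ j.2 = false ∧ P j.1 = fa j.1 ∧ Q j = Bb j.1) := by
    intro j hj
    by_cases hi : j.1 ∈ I
    · left
      rcases hJm j hj with h | h
      · refine ⟨hi, h, if_pos hi, ?_⟩
        show (if j.2 = true then (if j.1 ∈ I then Bb j.1 else A j.1) else Bb j.1) = _
        rw [if_pos h, if_pos hi]
      · exact absurd hi h.2
    · right
      rcases hJm j hj with h | h
      · left
        refine ⟨hi, h, if_neg hi, ?_⟩
        show (if j.2 = true then (if j.1 ∈ I then Bb j.1 else A j.1) else Bb j.1) = _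
        rw [if_pos h, if_neg hi]
      · right
        refine ⟨hi, h.1, if_neg hi, ?_⟩
        show (if j.2 = true then (if j.1 ∈ I then Bb j.1 else A j.1) else Bb j.1) = _
        rw [if_neg (by rw [h.1]; decide)]
  have nAB : ∀ k l, A k ≠ Bb l := fun k l h => hab (by rw [← hA k, h, hB])
  have nfA : ∀ k l, fa k ≠ A l := fun k l h => hya (by rw [← hfa k, h, hA])
  have nfB : ∀ k l, fa k ≠ Bb l := fun k l h => hyb (by rw [← hfa k, h, hB])
  have ifa : Function.Injective fa := by
    intro k l h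
    rw [← hca k, h, hca]
  have hPQ : ∀ k, ∀ j ∈ J, P k ≠ Q j := by
    intro k j hj h
    have hPk : P k = if k ∈ I then A k else fa k := rfl
    rw [hPk] at h
    rcases hkind j hj with ⟨h1, -, -, h4⟩ | ⟨h1, -, -, h4⟩ | ⟨h1, -, -, h4⟩
    · rw [h4] at h
      split_ifs at h with hk
      · exact nAB _ _ h
      · exact nfB _ _ h
    · rw [h4] at h
      split_ifs at h with hk
      · rw [iA h] at hk
        exact h1 hk
      · exact nfA _ _ h
    · rw [h4] at h
      split_ifs at h with hk
      · exact nAB _ _ h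
      · exact nfB _ _ h
  let β2 : V → Bool := fun v => decide (∃ k, P k = v)
  have hβP : ∀ k, β2 (P k) = true := fun k => decide_eq_true ⟨k, rfl⟩
  have hβQ : ∀ j ∈ J, β2 (Q j) = false := by
    intro j hj
    apply decide_eq_false
    rintro ⟨k, hk⟩
    exact hPQ k j hj hk
  let φ : Fin n × Bool → Sym2 V := fun j => s(P j.1, Q j)
  have hφi : ∀ i ∈ J, ∀ j ∈ J, φ i = φ j → i = j := by
    intro i hi j hj hij
    have hij' : s(P i.1, Q i) = s(P j.1, Q j) := hij
    rcases Sym2.eq_iff.1 hij' with ⟨h1, h2⟩ | ⟨h1, -⟩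
    · rcases hkind i hi with ⟨a1, a2, a3, a4⟩ | ⟨a1, a2, a3, a4⟩ | ⟨a1, a2, a3, a4⟩ <;>
      rcases hkind j hj with ⟨b1, b2, b3, b4⟩ | ⟨b1, b2, b3, b4⟩ | ⟨b1, b2, b3, b4⟩ <;>
      rw [a4, b4] at h2
      · exact Prod.ext (iB h2) (by rw [a2, b2])
      · exact absurd h2.symm (nAB _ _)
      · rw [iB h2] at a1
        exact absurd a1 b1
      · exact absurd h2 (nAB _ _)
      · exact Prod.ext (iA h2) (by rw [a2, b2])
      · exact absurd h2 (nAB _ _)
      · rw [← iB h2] at b1
        exact absurd b1 a1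
      · exact absurd h2.symm (nAB _ _)
      · exact Prod.ext (iB h2) (by rw [a2, b2])
    · exact absurd h1 (hPQ _ j hj)
  set F1 : Finset (Sym2 V) := J.image φ with hF1
  have hF1c : F1.card = 6 := by
    rw [hF1, Finset.card_image_of_injOn (fun i hi j hj h => hφi i hi j hj h), hJ]
  -- a point determines the colour of its bars
  have hcol : ∀ v, ∀ i ∈ J, ∀ j ∈ J, v ∈ φ i → v ∈ φ j → i.1 = j.1 := by
    intro v i hi j hj h1 h2
    have key : ∀ i ∈ J, v ∈ φ i → v = A i.1 ∨ v = Bb i.1 ∨ v = fa i.1 := by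
      intro i hi h1
      have h1' : v = P i.1 ∨ v = Q i := Sym2.mem_iff.1 h1
      rcases hkind i hi with ⟨-, -, a3, a4⟩ | ⟨-, -, a3, a4⟩ | ⟨-, -, a3, a4⟩ <;>
      rw [a3, a4] at h1' <;> tauto
    rcases key i hi h1 with e1 | e1 | e1 <;> rcases key j hj h2 with e2 | e2 | e2 <;>
      rw [e1] at e2
    · exact iA e2
    · exact absurd e2 (nAB _ _)
    · exact absurd e2.symm (nfA _ _)
    · exact absurd e2.symm (nAB _ _)
    · exact iB e2
    · exact absurd e2.symm (nfB _ _)
    · exact absurd e2 (nfA _ _)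
    · exact absurd e2 (nfB _ _)
    · exact ifa e2
  have hcap : Cap F1 := by
    intro v
    by_cases hex : ∃ e ∈ F1, v ∈ e
    · obtain ⟨e, he1, he2⟩ := hex
      obtain ⟨i, hi, rfl⟩ := Finset.mem_image.1 he1
      refine le_trans (Finset.card_le_card (t := {φ (i.1, true), φ (i.1, false)}) ?_)
        Finset.card_le_two
      intro e' he'
      simp only [Finset.mem_filter] at he'
      obtain ⟨h1, h2⟩ := he'
      obtain ⟨j, hj, rfl⟩ := Finset.mem_image.1 h1
      have h3 := hcol v i hi j hj he2 h2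
      rw [Finset.mem_insert, Finset.mem_singleton]
      rcases j with ⟨k, t⟩
      have h3' : i.1 = k := h3
      rw [h3']
      cases t
      · right; rfl
      · left; rfl
    · refine le_trans (Finset.card_le_card (t := ∅) ?_) (by simp)
      intro e' he'
      simp only [Finset.mem_filter] at he'
      obtain ⟨h1, h2⟩ := he'
      exact absurd ⟨e', h1, h2⟩ hex
  have hFb : ∀ u v, s(u, v) ∈ F1 →
      (β2 u = true ∧ β2 v = false) ∨ (β2 u = false ∧ β2 v = true) := by
    intro u v huv
    obtain ⟨j, hj, hjuv⟩ := Finset.mem_image.1 huv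
    have hjuv' : s(P j.1, Q j) = s(u, v) := hjuv
    rcases Sym2.eq_iff.1 hjuv' with ⟨rfl, rfl⟩ | ⟨rfl, rfl⟩
    · exact Or.inl ⟨hβP _, hβQ j hj⟩
    · exact Or.inr ⟨hβQ j hj, hβP _⟩
  have hWR : BM β F z ⊓ LinearMap.range sg = ⊥ := by
    rw [eq_bot_iff]
    rintro m ⟨hm, T, rfl⟩
    have q1 : ∀ k ∈ I, pr T (gx V (A k)) (gx V (Bb k)) = 0 := by
      intro k hk
      have := r1 _ hm k hk
      rwa [sg_y, sg_ne T a hya.symm, sub_zero] at this
    have q3 : ∀ k, k ∉ I → pr T (gx V (fa k)) (gx V (A k)) = 0 := by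
      intro k hk
      have := r3 _ hm k hk
      rwa [sg_y, sg_ne T a hya.symm, sub_zero] at this
    have q4 : ∀ k, k ∉ I → pr T (gx V (fa k)) (gx V (Bb k)) = 0 := by
      intro k hk
      have := r4 _ hm k hk
      rwa [sg_y, sg_ne T b hyb.symm, sub_zero] at this
    have hT : T = 0 := by
      apply six F1 hF1c hcap β2 hFb T
      intro u v huv hu hv
      obtain ⟨j, hj, hjuv⟩ := Finset.mem_image.1 huv
      have hjuv' : s(P j.1, Q j) = s(u, v) := hjuv
      rcases Sym2.eq_iff.1 hjuv' with ⟨rfl, rfl⟩ | ⟨rfl, rfl⟩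
      · rcases hkind j hj with ⟨a1, -, a3, a4⟩ | ⟨a1, -, a3, a4⟩ | ⟨a1, -, a3, a4⟩ <;>
        rw [a3, a4]
        · exact q1 _ a1
        · exact q3 _ a1
        · exact q4 _ a1
      · rw [hβQ j hj] at hu
        exact absurd hu (by decide)
    rw [hT, map_zero]
    exact Submodule.zero_mem _
  have h2 := Submodule.finrank_sup_add_finrank_inf_eq (BM β F z) (LinearMap.range sg)
  rw [hWR, finrank_bot, add_zero, hW] at h2
  have h3 : finrank (PK V) ((BM β F z) ⊔ LinearMap.range sg :
      Submodule (PK V) (B → Fin 6 → PK V)) ≤ finrank (PK V) M :=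
    Submodule.finrank_mono (sup_le c1 hWM)
  have h5 := gb_le β F z
  rw [hgM]
  omega

end Pool.Agent.Y927.TN.Ext
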